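import Pool.Agent.Helper14.TT.StF
import Pool.Agent.Helper14.CV.StB

/-!
# Project TT, MODULE FinTof: assembly of the theorem
-/

set_option autoImplicit false

open UpperHalfPlane CongruenceSubgroup
open scoped MatrixGroups

namespace Pool.Agent.Helper32.TT

open Pool.Agent.Helper14.TT Pool.Agent.Helper14.CV
open Pool.Agent.Helper76.TX (RootNum eX evX evX_apply eX_congr eX_smul NewSymS NSS Sg IsLTw LTC
  StLTE tau)

private lemma fc_zero {N : ℕ} (m : ℕ) : fc (0 : CuspForm (G0 N) 2) m = 0 := by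
  unfold fc
  rw [FunLike.coe_zero]
  simp [UpperHalfPlane.qExpansion_zero]

private lemma sg_wT {l : ℕ} (hl : l.Prime) (hl2 : l ≠ 2) (n : ℕ) : Sg (wT l n) := by
  have hcop : Nat.Coprime 2 l := by
    rw [Nat.coprime_primes Nat.prime_two hl]
    exact fun h => hl2 h.symm
  have h1 : jacobiSym 2 l = 1 ∨ jacobiSym 2 l = -1 := by
    refine jacobiSym.eq_one_or_neg_one ?_
    rw [Int.gcd_eq_natAbs]
    exact hcop
  unfold Sg wT
  rcases h1 with h | h
  · right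
    rw [h, one_pow]
  · rw [h]
    rcases neg_one_pow_eq_or ℤ n with h' | h'
    · right
      rw [h']
    · left
      rw [h', neg_neg]

/-- Iterates of a Hecke operator on an eigenvector. -/
private lemma eqc_iter {G : ℤ → ℤ → ℂ} {l : ℕ} (hl : 0 < l) {lam : ℂ}
    (h : EqC (Tl l 1 G) (lam • G)) (i : ℕ) : EqC ((Tl l 1)^[i] G) (lam ^ i • G) := by
  induction i with
  | zero =>
    rw [pow_zero, one_smul]
    exact EqC.refl _
  | succ i ih =>
    rw [Function.iterate_succ_apply]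
    have h1 := h.Tl_iter hl 1 i
    rw [Tl_iter_smul] at h1
    have h2 := h1.trans (ih.smul lam)
    rw [smul_smul, ← pow_succ'] at h2
    exact h2

private lemma evX_zero {G : ℤ → ℤ → ℂ} {l : ℕ} (hl : l ≠ 0) {a b : ℂ}
    (h3 : EqC (Tl 3 1 G) (a • G)) (h5 : EqC (Tl 5 1 G) (b • G)) (h0 : eX l G = 0) :
    evX l G = 0 := by
  funext i j
  rw [evX_apply]
  have h1 := (eqc_iter (by norm_num) h5 j).Tl_iter (l := 3) (by norm_num) 1 i
  rw [Tl_iter_smul] at h1
  have h2 := h1.trans ((eqc_iter (by norm_num) h3 i).smul (b ^ j))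
  rw [eX_congr hl h2, eX_smul, eX_smul, h0, smul_zero, smul_zero]
  rfl

private lemma isTw_iff {N l : ℕ} {χ : DirichletCharacter ℂ l}
    (hχ : ∀ m : ℕ, χ (m : ZMod l) = ((jacobiSym (m : ℤ) l : ℤ) : ℂ)) (f : CuspForm (G0 N) 2)
    (L : ℂ → ℂ) : IsTw l f L ↔ IsLTw χ f L := by
  unfold IsTw IsLTw
  simp only [hχ]

private lemma newSym_K {n : ℕ} {w : ℤ} {G : ℤ → ℤ → ℂ} (hn : 3 ≤ n) (hw : Sg w)
    (hcom : StCom) (hnrm : StNrm) (hSym : Sym 0 n G)
    (hW : EqC (act 0 (-1) (2 ^ n) 0 G) (-(w • G))) (hT : EqC (act 2 1 0 2 G) (-G)) :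
    NewSymS n w (-1) (G - act (-1) 0 0 1 G) := by
  obtain ⟨c1, c2, c3, c4, c5, c6, c7, c8, c9, c10⟩ := hcom n G hn hSym
  obtain ⟨n1, n2, n3, n4⟩ := hnrm n G (by omega) hSym
  have hN : (2 : ℤ) ^ n ≠ 0 := by positivity
  have dW : (0 : ℤ) * 0 - (-1) * 2 ^ n ≠ 0 := by
    rw [zero_mul, zero_sub, neg_mul, one_mul, neg_neg]
    exact hN
  have dS : (1 : ℤ) * 1 - 0 * 2 ^ (n - 1) ≠ 0 := by norm_num
  have dI : (-1 : ℤ) * 1 - 0 * 0 ≠ 0 := by norm_num
  have hww : w * w = 1 := by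
    rcases hw with h | h <;> rw [h] <;> norm_num
  have hS : EqC (act 1 0 (2 ^ (n - 1)) 1 G) (-G) := by
    have e1 : EqC (act 1 0 (2 ^ (n - 1)) 1 (act 0 (-1) (2 ^ n) 0 G))
        (-(w • act 1 0 (2 ^ (n - 1)) 1 G)) := hW.act dS
    have e2 : EqC (act 0 (-1) (2 ^ n) 0 (act 2 1 0 2 G)) (-act 0 (-1) (2 ^ n) 0 G) := hT.act dW
    have e3 : EqC (-act 0 (-1) (2 ^ n) 0 G) (- -(w • G)) := hW.neg
    rw [neg_neg] at e3
    have e4 := ((e1.symm.trans c7).trans (e2.trans e3)).smul (-w)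
    have e5 : (-w) • (-(w • act 1 0 (2 ^ (n - 1)) 1 G)) = act 1 0 (2 ^ (n - 1)) 1 G := by
      rw [smul_neg, _root_.neg_smul, neg_neg, smul_smul, hww, one_smul]
    have e6 : (-w) • (w • G) = -G := by
      rw [_root_.neg_smul, smul_smul, hww, one_smul]
    rw [e5, e6] at e4
    exact e4
  refine ⟨?_, ?_, ?_, ?_, ?_⟩
  · rw [sub_eq_add_neg]
    exact hSym.add n4.neg
  · rw [act_sub, neg_sub']
    refine hT.sub (c8.trans ?_)
    exact hT.act dI
  · rw [act_sub, neg_sub']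
    refine hS.sub (c9.trans ?_)
    exact hS.act dI
  · rw [act_sub, smul_sub, neg_sub']
    refine hW.sub (c10.trans ?_)
    exact hW.act dI
  · rw [act_sub, neg_one_smul, neg_sub]
    exact (EqC.refl _).sub c4

theorem hFinTof : FinTof := by
  intro hA4 hP1 hP2 hP3 hP5 hCom hNrm hSgn hCore hChi hA8 hN4 hP4 hA6 hLTC hLTE
  intro l n f hl hn hf hR
  obtain ⟨hlp, hl8⟩ := hl
  have hl2 : l ≠ 2 := by
    rintro rfl
    rcases hl8 with h | h <;> omega
  have hl4 : l % 4 = 3 := by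
    rcases hl8 with h | h <;> omega
  have hl0 : l ≠ 0 := hlp.ne_zero
  haveI : NeZero l := ⟨hl0⟩
  obtain ⟨χ, hprim, hχ, hχi⟩ := hChi l hlp hl2
  refine ⟨?_, ?_⟩
  · obtain ⟨L, hL⟩ := hLTE (2 ^ n) inferInstance f l inferInstance χ hprim
    exact ⟨L, (isTw_iff hχ f L).mpr hL⟩
  intro L hL hL0
  obtain ⟨G, hG, _⟩ := hA4 (2 ^ n) inferInstance f
  have hSym : Sym 0 n G := hP2 n f G hG
  have hSg : Sg (wT l n) := sg_wT hlp hl2 n
  have hW : EqC (act 0 (-1) (2 ^ n) 0 G) (-((wT l n) • G)) :=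
    hP4 (wT l n) n f G hSg hG (hA8 (wT l n) (2 ^ n) inferInstance f hSg hR)
  have hT : EqC (act 2 1 0 2 G) (-G) :=
    hP5 (2 ^ n) inferInstance f G hG (hN4 (wT l n) n f hSg (by omega) hf hR)
  have hNew := newSym_K hn hSg hCom hNrm hSym hW hT
  -- the twisted values of `G` vanish
  have heX : eX l G = 0 := by
    obtain ⟨-, h1⟩ := hLTC (2 ^ n) inferInstance f l inferInstance χ L G hprim
      ((isTw_iff hχ f L).mp hL) hG
    rw [hL0, zero_mul] at h1
    unfold eX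
    rw [h1]
    refine Finset.sum_congr rfl fun a _ => ?_
    rw [hχi, zsmul_eq_mul]
  have t3 : EqC (Tl 3 1 G) (fc f 3 • G) := by
    refine EqC.of_eq fun p q hpq => ?_
    rw [hP3 (2 ^ n) inferInstance f G 3 (fc f 3) hG (by norm_num)
      (hf.hecke 3 Nat.prime_three (by norm_num)) p q hpq]
    rfl
  have t5 : EqC (Tl 5 1 G) (fc f 5 • G) := by
    refine EqC.of_eq fun p q hpq => ?_
    rw [hP3 (2 ^ n) inferInstance f G 5 (fc f 5) hG (by norm_num)
      (hf.hecke 5 Nat.prime_five (by norm_num)) p q hpq]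
    rfl
  have hev : evX l G = 0 := evX_zero hl0 t3 t5 heX
  have hevK : evX l (G - act (-1) 0 0 1 G) = 0 := by
    rw [map_sub, (hSgn l n G hlp hl4 (by omega) hSym).2, hev]
    simp
  obtain ⟨c, hc⟩ := hCore l n _ ⟨hlp, hl8⟩ hn hNew hevK
  have hf0 : f = 0 := by
    refine hA6 (2 ^ n) inferInstance f G c hG ?_
    intro p q hpq
    have h := hc p q hpq
    simpa [act] using h
  have h1 := hf.normalised
  rw [hf0, fc_zero] at h1
  exact zero_ne_one h1

end Pool.Agent.Helper32.TT
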